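import Pool.Agent.Q280.LF.Sing
import Pool.Agent.Y787.AS.Three
import Pool.Agent.Y787.AS.Rat

/-!
# Singular matrices of logarithms: all failures come from a canonical subspace

Let `L` be the rational space of the complex (or `p`-adic) logarithms of algebraic numbers; most of the following holds for
an arbitrary rational subspace `L` of a field of characteristic zero.  We prove, unconditionally:

1. There is a smallest subspace `B` of `L` such that elements of `L` which are linearly independent over `ℚ` modulo `B` are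
   algebraically independent over the field `ℚ(B)`; `B = 0` if and only if linearly independent elements of `L` are
   algebraically independent.
2. Q1 (Q2) for all matrices of size at most `N` with entries in `B` implies Q1 (Q2) for all matrices of size at most `N`
   with entries in `L`.  Every counterexample whose size is minimal has all its entries in `B`.
3. If `B` is finite dimensional, then it is even sufficient to consider the matrices of size at most `dim B` with entries
   in `B`.
4. For every singular matrix `M` with entries in `L` there are nonzero vectors `w`, `v` over the field `ℚ(B)` with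
   `wᵗ M v = 0`.  (For `B = 0` this is the assertion of Q1.)
5. For complex and for `p`-adic logarithms all counterexamples of size at most three have all their entries in `B`.

The proof: by the general theory of `Pool.Agent.Q280.LF` the locus over `ℚ(B)` of a point with coordinates in `L` is the
translate of a rational linear space by a point with coordinates in `B`.  So a singular matrix is a member of an identically
singular family `W + ∑ X_p C_p`, with `W` over `B` and rational `C_p`, and an element of maximal rank in the span of the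
`C_p` reduces `W` to a smaller singular matrix over `B` (`Pool.Agent.Y921.SR`).  Part 5 uses the theorem on identically
singular pencils of size three of `Pool.Agent.Y787.AS`, which depends on the theorem of the linear subgroup (Waldschmidt,
Roy).
-/

set_option autoImplicit false

open Matroid Set Module Pool.Agent.Q280.LF

namespace Pool.Agent.Results.MP_1f047c_nt.CanonicalSubspace

section Definitions

variable {C : Type} [Field C] [CharZero C]

/-- Elements of `L` which are linearly independent over `ℚ` modulo `B` are algebraically independent over the field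
`ℚ(B)`. -/
def FreeModulo (L B : Submodule ℚ C) : Prop :=
  ∀ (n : ℕ) (x : Fin n → C), (∀ i, x i ∈ L) → (∀ c : Fin n → ℚ, ∑ i, c i • x i ∈ B → c = 0) →
    AlgebraicIndependent (IntermediateField.adjoin ℚ (B : Set C)) x

/-- `B` is the smallest subspace of `L` such that `L` is free modulo `B`. -/
def IsCore (L B : Submodule ℚ C) : Prop :=
  B ≤ L ∧ FreeModulo L B ∧ ∀ B' ≤ L, FreeModulo L B' → B ≤ B'

/-- `wᵗ M v = 0` for some nonzero rational vectors. -/
def RationalZero {n : ℕ} (M : Matrix (Fin n) (Fin n) C) : Prop :=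
  ∃ w v : Fin n → ℚ, w ≠ 0 ∧ v ≠ 0 ∧ ∑ i, ∑ j, (w i : C) * M i j * (v j : C) = 0

/-- The assertion of Q1 for all matrices of size at most `N` with entries in `V`. -/
def Holds (N : ℕ) (V : Submodule ℚ C) : Prop :=
  ∀ n : ℕ, 1 ≤ n → n ≤ N → ∀ M : Matrix (Fin n) (Fin n) C, (∀ i j, M i j ∈ V) → M.det = 0 → RationalZero M

end Definitions

/-- The complex logarithms of algebraic numbers. -/
def logs : Set ℂ := {z : ℂ | IsAlgebraic ℚ (Complex.exp z)}

/-- `L` is the Iwasawa `p`-adic logarithm on the algebraic closure of `ℚ_p`. -/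
def IsIwasawaLog (p : ℕ) [Fact p.Prime] (L : PadicAlgCl p → PadicAlgCl p) : Prop :=
  (∀ x y : PadicAlgCl p, x ≠ 0 → y ≠ 0 → L (x * y) = L x + L y) ∧
  L ((p : ℕ) : PadicAlgCl p) = 0 ∧
  ∀ z : PadicAlgCl p, ‖z‖ < 1 →
    HasSum (fun n : ℕ => (-1 : PadicAlgCl p) ^ n * z ^ (n + 1) / ((n : PadicAlgCl p) + 1))
      (L (1 + z))

/-- The `p`-adic logarithms of algebraic numbers. -/
def padicLogs {p : ℕ} [Fact p.Prime] (L : PadicAlgCl p → PadicAlgCl p) : Set (PadicAlgCl p) :=
  {z | ∃ α : PadicAlgCl p, α ≠ 0 ∧ IsAlgebraic ℚ α ∧ z = L α}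

/-! ### Preparations -/

section Proofs

variable {C : Type} [Field C] [CharZero C]

theorem hK (a : ℚ) : IsAlgebraic ℚ (algebraMap ℚ C a) := isAlgebraic_algebraMap a

/-- the canonical subspace -/
noncomputable def cr (L : Submodule ℚ C) : Submodule ℚ C := core (hK (C := C)) L

theorem adjoin_cl (B : Submodule ℚ C) : (IntermediateField.adjoin ℚ (B : Set C) : Set C) ⊆ (Mt C).closure (B : Set C) :=
  fun _ h => adjoin_sub _ h

theorem indep_adjoin {n : ℕ} {x : Fin n → C} {B : Submodule ℚ C} {F : IntermediateField ℚ C} (hB : (B : Set C) ⊆ F)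
    (hF : Clos F) (h : AlgebraicIndependent F x) :
    AlgebraicIndependent (IntermediateField.adjoin ℚ (B : Set C)) x := by
  apply indep_of_forall
  intro i hi
  refine notMem_of_indep h i (cl_sub (union_subset ?_ ?_) hi)
  · exact ((adjoin_cl B).trans (hF.cl_sub hB)).trans (subset_union_left.trans (subset_cl _))
  · exact subset_union_right.trans (subset_cl _)

theorem free_core (L : Submodule ℚ C) : FreeModulo L (cr L) := by
  intro n x hx hli
  refine indep_adjoin (F := FF hK L) (fun z hz => core_sub_FF hK hz) (clos_FF hK) ?_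
  refine free_FF hK n x hx fun c hc => hli c ?_
  exact (mem_core_iff hK).mpr ⟨hc, L.sum_mem fun i _ => L.smul_mem _ (hx i)⟩

theorem notMem_of_adjoin {ι : Type*} {B : Submodule ℚ C} {x : ι → C}
    (h : AlgebraicIndependent (IntermediateField.adjoin ℚ (B : Set C)) x) (i : ι) :
    x i ∉ (Mt C).closure ((B : Set C) ∪ x '' {i}ᶜ) := fun hi =>
  notMem_of_indep h i (cl_mono (union_subset_union_left _ (IntermediateField.subset_adjoin _ _)) hi)

theorem core_smallest {L B' : Submodule ℚ C} (h : FreeModulo L B') : cr L ≤ B' := by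
  have h1 : Free L (clF (B' : Set C)) := by
    intro n x hx hli
    have h2 := h n x hx fun c hc => hli c (subset_cl _ hc)
    apply indep_of_forall
    intro i hi
    refine notMem_of_adjoin h2 i (cl_sub (union_subset ?_ ?_) hi)
    · exact cl_mono subset_union_left
    · exact subset_union_right.trans (subset_cl _)
  have h2 := FF_le (hK (C := C)) (clos_clF (B' : Set C)) h1
  intro x hx
  by_contra hxB
  have hxL : x ∈ L := core_le hK hx
  have h3 := h 1 ![x] (fun i => by simpa using hxL) (fun c hc => by
    rw [Fin.sum_univ_one] at hc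
    simp only [Matrix.cons_val_fin_one] at hc
    have h0 : c 0 = 0 := by
      by_contra h0
      apply hxB
      have := B'.smul_mem (c 0)⁻¹ hc
      rw [smul_smul, inv_mul_cancel₀ h0, one_smul] at this
      exact this
    funext i
    rw [Subsingleton.elim i 0]
    exact h0)
  apply notMem_of_adjoin h3 0
  have h4 : x ∈ (Mt C).closure (B' : Set C) := h2 (core_sub_FF hK hx)
  exact cl_mono subset_union_left h4

theorem isCore (L : Submodule ℚ C) : IsCore L (cr L) := ⟨core_le hK, free_core L, fun _ _ h => core_smallest h⟩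

theorem IsCore.eq {L B : Submodule ℚ C} (h : IsCore L B) : B = cr L :=
  le_antisymm (h.2.2 _ (core_le hK) (free_core L)) (core_smallest h.2.1)

theorem core_bot (L : Submodule ℚ C) : cr L = ⊥ ↔
    ∀ (n : ℕ) (x : Fin n → C), (∀ i, x i ∈ L) → LinearIndependent ℚ x → AlgebraicIndependent ℚ x := by
  constructor
  · intro h n x hx hli
    have h1 := free_core L n x hx fun c hc => by
      rw [h, Submodule.mem_bot] at hc
      funext i
      exact Fintype.linearIndependent_iff.mp hli c hc i
    exact h1.restrictScalars (algebraMap ℚ _).injective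
  · intro h
    rw [eq_bot_iff]
    apply core_smallest
    intro n x hx hli
    have h1 := h n x hx (by
      rw [Fintype.linearIndependent_iff]
      intro c hc i
      have := hli c (by rw [hc]; exact zero_mem _)
      rw [this]
      rfl)
    have h2 := rank_range_of_indep h1
    apply indep_of_forall
    intro i hi
    have h3 : x i ∈ (Mt C).closure (x '' {i}ᶜ) := by
      refine cl_sub (union_subset ?_ (subset_cl _)) hi
      refine (adjoin_cl (⊥ : Submodule ℚ C)).trans (cl_sub ?_)
      intro z hz
      rw [SetLike.mem_coe, Submodule.mem_bot] at hz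
      rw [hz]
      exact cl_alg isAlgebraic_zero
    have h4 : (Mt C).eRk (range x) ≤ (Mt C).eRk (x '' {i}ᶜ) := by
      rw [← (Mt C).eRk_closure_eq (x '' {i}ᶜ)]
      apply (Mt C).eRk_mono
      rintro _ ⟨j, rfl⟩
      by_cases hj : j = i
      · rw [hj]
        exact h3
      · exact subset_cl _ ⟨j, hj, rfl⟩
    have h5 : (Mt C).eRk (x '' {i}ᶜ) ≤ (n - 1 : ℕ) := by
      refine ((Mt C).eRk_le_encard _).trans ((encard_image_le _ _).trans ?_)
      have : ({i}ᶜ : Set (Fin n)).encard = ((Finset.univ.erase i).card : ℕ∞) := by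
        rw [← Set.encard_coe_eq_coe_finsetCard]
        congr 1
        ext j
        simp
      rw [this, Finset.card_erase_of_mem (Finset.mem_univ i), Finset.card_univ, Fintype.card_fin]
    rw [h2] at h4
    have h6 : n ≤ n - 1 := by exact_mod_cast h4.trans h5
    have := i.pos
    omega

theorem rz_of_bil {n : ℕ} {M : Matrix (Fin n) (Fin n) C} {w v : Fin n → ℚ} (hw : w ≠ 0) (hv : v ≠ 0)
    (h : ∑ i, ∑ j, (w i * v j) • M i j = 0) : RationalZero M := by
  refine ⟨w, v, hw, hv, ?_⟩
  rw [← h]
  refine Finset.sum_congr rfl fun i _ => Finset.sum_congr rfl fun j _ => ?_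
  rw [Rat.smul_def]
  push_cast
  ring

theorem bil_of_rz {n : ℕ} {M : Matrix (Fin n) (Fin n) C} (h : RationalZero M) :
    ∃ w v : Fin n → ℚ, w ≠ 0 ∧ v ≠ 0 ∧ ∑ i, ∑ j, (w i * v j) • M i j = 0 := by
  obtain ⟨w, v, hw, hv, h⟩ := h
  refine ⟨w, v, hw, hv, ?_⟩
  rw [← h]
  refine Finset.sum_congr rfl fun i _ => Finset.sum_congr rfl fun j _ => ?_
  rw [Rat.smul_def]
  push_cast
  ring

omit [CharZero C] in
/-- a zero of the whole family -/
theorem sum_family {K : Type*} [Field K] [Algebra K C] {n k : ℕ} (M W : Matrix (Fin n) (Fin n) C)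
    (D : Fin k → Matrix (Fin n) (Fin n) K) (y : Fin k → C)
    (hM : ∀ i j, M i j = W i j + ∑ p, D p i j • y p) (w v : Fin n → K)
    (h1 : ∑ i, ∑ j, (w i * v j) • W i j = 0) (h2 : ∀ p, dotProduct w ((D p).mulVec v) = 0) :
    ∑ i, ∑ j, (w i * v j) • M i j = 0 := by
  have h3 : ∀ i j, (w i * v j) • M i j = (w i * v j) • W i j + ∑ p, (w i * (D p i j * v j)) • y p := by
    intro i j
    rw [hM, smul_add, Finset.smul_sum]
    congr 1
    refine Finset.sum_congr rfl fun p _ => ?_
    rw [smul_smul]
    congr 1
    ring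
  have h4 : ∑ i, ∑ j, ∑ p, (w i * (D p i j * v j)) • y p = 0 := by
    have h5 : ∀ i, ∑ j, ∑ p, (w i * (D p i j * v j)) • y p = ∑ p, ∑ j, (w i * (D p i j * v j)) • y p := fun i =>
      Finset.sum_comm
    simp only [h5]
    rw [Finset.sum_comm]
    refine Finset.sum_eq_zero fun p _ => ?_
    have h6 := h2 p
    simp only [dotProduct, Matrix.mulVec, Finset.mul_sum] at h6
    rw [← zero_smul K (y p), ← h6, Finset.sum_smul]
    refine Finset.sum_congr rfl fun i _ => ?_
    rw [Finset.sum_smul]
  simp only [h3, Finset.sum_add_distrib]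
  rw [h1, h4, add_zero]

theorem linLoc (L : Submodule ℚ C) : LinLoc L (FF hK L) := linLoc_of_free hK (clos_FF hK) (free_FF hK)

theorem reduce {L : Submodule ℚ C} {n : ℕ} (M : Matrix (Fin n) (Fin n) C) (hM : ∀ i j, M i j ∈ L)
    (hdet : M.det = 0) (h : Holds (n - 1) (cr L)) : (∀ i j, M i j ∈ cr L) ∨ RationalZero M := by
  obtain ⟨k, W, D, y, h1, h2, h3, h4⟩ := det_locus (linLoc L) M hM hdet
  have hW : ∀ i j, W i j ∈ cr L := fun i j => (mem_core_iff hK).mpr ⟨h1 i j, h2 i j⟩
  by_cases hD : ∃ p, D p ≠ 0
  · obtain ⟨p₀, hp₀⟩ := hD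
    right
    obtain ⟨w, v, hw, hv, h5, h6⟩ := family' (V := cr L) (n := n) (fun m hm1 hm2 M' hM' hdet' =>
      bil_of_rz (h m hm1 (by omega) M' hM' hdet')) W hW D hp₀ h4
    exact rz_of_bil hw hv (sum_family M W D y h3 w v h5 h6)
  · left
    push Not at hD
    intro i j
    rw [h3]
    simp only [hD, Matrix.zero_apply, zero_smul, Finset.sum_const_zero, add_zero]
    exact hW i j

theorem holds_of {L : Submodule ℚ C} {N : ℕ} (h : Holds N (cr L)) : Holds N L := by
  intro n hn1 hn2 M hM hdet
  rcases reduce M hM hdet (fun m hm1 hm2 => h m hm1 (by omega)) with h1 | h1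
  · exact h n hn1 hn2 M h1 hdet
  · exact h1

theorem large {V : Submodule ℚ C} (hfd : FiniteDimensional ℚ V) (h : Holds (finrank ℚ V) V) (N : ℕ) : Holds N V := by
  intro n hn1 _ M hM hdet
  by_cases hn : n ≤ finrank ℚ V
  · exact h n hn1 hn M hM hdet
  · obtain ⟨w, v, hw, hv, h1⟩ := Pool.Agent.Y921.SR.large_space V (not_le.mp hn) M hM
    exact rz_of_bil hw hv h1

/-- zeros over the field generated by the canonical subspace -/
theorem field_zero {L : Submodule ℚ C} {n : ℕ} (M : Matrix (Fin n) (Fin n) C)
    (hM : ∀ i j, M i j ∈ L) (hdet : M.det = 0) :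
    ∃ w v : Fin n → IntermediateField.adjoin ℚ (cr L : Set C), w ≠ 0 ∧ v ≠ 0 ∧
      ∑ i, ∑ j, (w i : C) * M i j * (v j : C) = 0 := by
  classical
  obtain ⟨k, W, D, y, h1, h2, h3, h4⟩ := det_locus (linLoc L) M hM hdet
  have hW : ∀ i j, W i j ∈ cr L := fun i j => (mem_core_iff hK).mpr ⟨h1 i j, h2 i j⟩
  let k0 := IntermediateField.adjoin ℚ (cr L : Set C)
  have hz : Pool.Agent.Y921.SR.ZeroProp (K := k0) (A := C) (Submodule.span k0 {1}) := by
    intro m hm M' hM' hdet'
    have h5 : ∀ i j, ∃ a : k0, (a : C) = M' i j := by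
      intro i j
      obtain ⟨a, ha⟩ := Submodule.mem_span_singleton.mp (hM' i j)
      refine ⟨a, ?_⟩
      rw [← ha, Algebra.smul_def, mul_one]
      rfl
    choose M0 hM0 using h5
    have h6 : (Matrix.of M0).det = 0 := by
      apply (algebraMap k0 C).injective
      rw [map_zero, RingHom.map_det, ← hdet']
      congr 1
      ext i j
      exact hM0 i j
    obtain ⟨v, hv0, hv⟩ := Matrix.exists_mulVec_eq_zero_iff.mpr h6
    refine ⟨Pi.single ⟨0, hm⟩ 1, v, ?_, hv0, ?_⟩
    · intro h0
      have := congrFun h0 ⟨0, hm⟩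
      simp at this
    · refine Finset.sum_eq_zero fun i _ => ?_
      have h7 := congrFun hv i
      have h8 : ∑ j, ((Pi.single (⟨0, hm⟩ : Fin m) (1 : k0) : Fin m → k0) i * v j) • M' i j =
          (Pi.single (⟨0, hm⟩ : Fin m) (1 : k0) : Fin m → k0) i • ∑ j, (v j) • M' i j := by
        rw [Finset.smul_sum]
        exact Finset.sum_congr rfl fun j _ => by rw [smul_smul]
      rw [h8]
      have h9 : ∑ j, (v j) • M' i j = 0 := by
        have h10 : ((Matrix.of M0).mulVec v i : C) = 0 := by rw [h7]; rfl
        rw [← h10, Matrix.mulVec, dotProduct]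
        rw [← IntermediateField.algebraMap_apply, map_sum]
        refine Finset.sum_congr rfl fun j _ => ?_
        rw [map_mul, Algebra.smul_def, mul_comm]
        congr 1
        exact (hM0 i j).symm
      rw [h9, smul_zero]
  obtain ⟨w, v, hw, hv, h5, h6⟩ := Pool.Agent.Y921.SR.family hz W (fun i j => by
      refine Submodule.mem_span_singleton.mpr ⟨⟨W i j, IntermediateField.subset_adjoin _ _ (hW i j)⟩, ?_⟩
      rw [Algebra.smul_def, mul_one]
      rfl) (fun p => (D p).map (algebraMap ℚ k0)) (fun X => by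
      rw [← h4 X]
      rfl)
  refine ⟨w, v, hw, hv, ?_⟩
  have h7 := sum_family (K := k0) M W (fun p => (D p).map (algebraMap ℚ k0)) y (fun i j => by
    rw [h3 i j]
    congr 1
    refine Finset.sum_congr rfl fun p _ => ?_
    rw [Matrix.map_apply, Algebra.smul_def, Algebra.smul_def]
    rfl) w v h5 h6
  rw [← h7]
  refine Finset.sum_congr rfl fun i _ => Finset.sum_congr rfl fun j _ => ?_
  rw [Algebra.smul_def, map_mul]
  have h8 : ∀ a : k0, algebraMap k0 C a = (a : C) := fun _ => rfl
  rw [h8, h8]
  ring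

theorem holds_one (V : Submodule ℚ C) : Holds 1 V := by
  intro n hn1 hn2 M _ hdet
  have hn : n = 1 := by omega
  subst hn
  refine ⟨fun _ => 1, fun _ => 1, fun h => ?_, fun h => ?_, ?_⟩
  · simpa using congrFun h 0
  · simpa using congrFun h 0
  · rw [Matrix.det_fin_one] at hdet
    simp [hdet]

/-- sizes at most three -/
theorem small {S : Set C} (hyp : Pool.Agent.W254.PA.Hyp (Pool.Agent.Y787.AS.LtQ S)) {n : ℕ} (hn1 : 1 ≤ n)
    (hn : n ≤ 3) (M : Matrix (Fin n) (Fin n) C) (hM : ∀ i j, M i j ∈ S) (hdet : M.det = 0) :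
    (∀ i j, M i j ∈ cr (Submodule.span ℚ S)) ∨ RationalZero M := by
  have hM' : ∀ i j, M i j ∈ Submodule.span ℚ S := fun i j => Submodule.subset_span (hM i j)
  by_cases hn2 : n ≤ 2
  · refine reduce M hM' hdet fun m hm1 hm2 => ?_
    exact holds_one _ m hm1 (by omega)
  · have hn3 : n = 3 := by omega
    subst hn3
    obtain ⟨k, W, D, y, h1, h2, h3, h4⟩ := det_locus (linLoc (Submodule.span ℚ S)) M hM' hdet
    by_cases hD : ∃ p, D p ≠ 0
    · obtain ⟨p₀, hp₀⟩ := hD
      right
      obtain ⟨w, v, hw, hv, h5⟩ := Pool.Agent.Y787.AS.three_rz hyp M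
        (fun i j => Submodule.subset_span (Or.inr (hM i j))) (D p₀) hp₀ (fun x => by
          classical
          rw [← h4 (y + Pi.single p₀ x)]
          congr 1
          ext i j
          rw [Matrix.add_apply, Matrix.add_apply, h3 i j, add_assoc]
          congr 1
          simp only [Matrix.sum_apply, Matrix.smul_apply, Matrix.map_apply, Pi.add_apply, smul_eq_mul, add_mul,
            Finset.sum_add_distrib]
          congr 1
          · refine Finset.sum_congr rfl fun p _ => ?_
            rw [Algebra.smul_def, mul_comm]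
          · rw [Finset.sum_eq_single p₀]
            · rw [Pi.single_eq_same]
            · intro p _ hp
              rw [Pi.single_eq_of_ne hp, zero_mul]
            · intro h
              exact absurd (Finset.mem_univ _) h)
      exact ⟨w, v, hw, hv, h5⟩
    · left
      push Not at hD
      intro i j
      rw [h3]
      simp only [hD, Matrix.zero_apply, zero_smul, Finset.sum_const_zero, add_zero]
      exact (mem_core_iff hK).mpr ⟨h1 i j, h2 i j⟩

end Proofs

/-! ### The result -/

theorem result :
    -- an arbitrary space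
    (∀ (C : Type) [Field C] [CharZero C] (L : Submodule ℚ C), ∃ B : Submodule ℚ C, IsCore L B ∧
      (B = ⊥ ↔ ∀ (n : ℕ) (x : Fin n → C), (∀ i, x i ∈ L) → LinearIndependent ℚ x → AlgebraicIndependent ℚ x) ∧
      (∀ N, Holds N B → Holds N L) ∧
      (∀ (n : ℕ) (M : Matrix (Fin n) (Fin n) C), (∀ i j, M i j ∈ L) → M.det = 0 → ¬ RationalZero M →
        Holds (n - 1) B → ∀ i j, M i j ∈ B) ∧
      (FiniteDimensional ℚ B → Holds (finrank ℚ B) B → ∀ N, Holds N L) ∧
      ∀ (n : ℕ) (M : Matrix (Fin n) (Fin n) C), (∀ i j, M i j ∈ L) → M.det = 0 →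
        ∃ w v : Fin n → IntermediateField.adjoin ℚ (B : Set C), w ≠ 0 ∧ v ≠ 0 ∧
          ∑ i, ∑ j, (w i : C) * M i j * (v j : C) = 0) ∧
    -- complex logarithms
    (∀ B : Submodule ℚ ℂ, IsCore (Submodule.span ℚ logs) B →
      ∀ n : ℕ, 1 ≤ n → n ≤ 3 → ∀ M : Matrix (Fin n) (Fin n) ℂ, (∀ i j, M i j ∈ logs) → M.det = 0 →
        ¬ RationalZero M → ∀ i j, M i j ∈ B) ∧
    -- `p`-adic logarithms
    (∀ (p : ℕ) [Fact p.Prime] (L : PadicAlgCl p → PadicAlgCl p), IsIwasawaLog p L →
      ∀ B : Submodule ℚ (PadicAlgCl p), IsCore (Submodule.span ℚ (padicLogs L)) B →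
        ∀ n : ℕ, 1 ≤ n → n ≤ 3 → ∀ M : Matrix (Fin n) (Fin n) (PadicAlgCl p), (∀ i j, M i j ∈ padicLogs L) →
          M.det = 0 → ¬ RationalZero M → ∀ i j, M i j ∈ B) := by
  refine ⟨fun C _ _ L => ⟨cr L, isCore L, core_bot L, fun N h => holds_of h, ?_, ?_, ?_⟩, ?_, ?_⟩
  · intro n M hM hdet hz h
    exact (reduce M hM hdet h).resolve_right hz
  · intro hfd h N
    exact holds_of (large hfd h N)
  · intro n M hM hdet
    exact field_zero M hM hdet
  · intro B hB n hn1 hn M hM hdet hz
    rw [hB.eq]
    exact (small Pool.Agent.Y787.AS.hypQ_complex hn1 hn M hM hdet).resolve_right hz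
  · intro p _ L hL B hB n hn1 hn M hM hdet hz
    rw [hB.eq]
    exact (small (S := padicLogs L) (Pool.Agent.Y787.AS.hypQ_padic (L := L) ⟨hL.1, hL.2.1, hL.2.2⟩) hn1 hn M hM hdet).resolve_right hz

end Pool.Agent.Results.MP_1f047c_nt.CanonicalSubspace
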