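import Pool.Agent.Q7.GK.All2
import Pool.Agent.Q7.LK.Uni

/-!
# The Gross–Kuz'min conjecture for most Kummer extensions of odd prime degree

Let `p` be a prime. For a number field `K`, a prime `P` of `K` above `p` and `x ∈ K^*` let `λ_P(x) = log_p N_(K_P/ℚ_p)(x)`, `log_p` Iwasawa's
logarithm (`log_p p = 0`). The Gross–Kuz'min conjecture for `K` and `p` says that the matrix `(λ_P(ε))`, `ε` in the group of the
`p`-units of `K`, `P` above `p`, has the rank `#{P ∣ p} - 1`, the largest possible one (`∑_P λ_P(ε) = log_p N_(K/ℚ)(ε) = 0`). It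
follows from the assertion of Q2.

Let `p` be odd and `F` any number field which contains a primitive `p`-th root of unity, `m` the number of its complex
places. We consider the extensions `L = F(d^(1/p))` of degree `p` with prescribed completions at all places above
the prime numbers `≤ y` (those of `F(d₀^(1/p))`), and with prescribed orders `z_0, …, z_(k-1)` modulo `p`, different from `0`,
of `d` at `k` further primes `q_0, …, q_(k-1)`, of norms `≤ X_0, …, X_(k-1)` (the extension is unramified at all other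
primes), for large `k`, `X_0`, then `X_1` large in terms of `X_0`, and so on. Let `G` be a set of primes of `F` above `p`
and `s` the number of the `v ∈ G` at which `d₀` is a local `p`-th power (they split completely in all these `L`).

(1) The matrix `(λ_P(u))`, `u` in the group of the `G`-units of `L` of relative norm `1` (of rank `(p-1)(m+s)`), `P` above `G`, has at
most the rank `(p-1)s`. For all `t ≥ 1` it has a rank `≥ (p-1)(s-t+1)` for at least the share `1 - p^(-m)/(p^t-1) - ε` of the `L`.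

(2) For at least the share `1 - p^(-m)/(p-1) - ε` of the `L` the rank of `(λ_P)` for the `G`-units of `L` is at least `(p-1)s` plus
the rank of the corresponding matrix of `F`.

(3) If `G` consists of all primes above `p`, and the Gross–Kuz'min conjecture is true for `F` and `p` (trivially so if `F` has
only one prime above `p`) or `F/ℚ` is abelian (then it is true, Greenberg; proved here again from Brumer's theorem), it is true for
`L` and `p` for at least the share `1 - p^(-m)/(p-1) - ε` of the `L`.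

Proof. The relations between the vectors `(λ_P(u))` form a saturated submodule of the `p`-adic completion of the group `U` of the
`G`-units of relative norm `1` modulo torsion, a module over `ℤ_p[μ_p]` of rank at least `m`. Each rank gives an element `w ∈ U`,
independent modulo `p`-th powers and the `ζ^j σ(η)/η`, such that `λ_P(w η^p)` is arbitrarily small for suitable `η ∈ U`. By Hilbert's
theorem 90 `w = σ(y)/y`, and `a = N(y)`, up to `p`-th powers not a power of `d`, has order divisible by `p` at the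
primes outside `p` which are unramified in `L`, is locally a power of `d` at the ramified ones and belongs to one of
`p^([F_v:ℚ_p]+1)` local classes at each place above `p`: at the places of `G` which split those with `λ_v(a) ∈ p λ_v(F_v^*)`. The
power residue symbols which describe the group of these `a` are equidistributed over the ensemble by the law of
reciprocity and Chebotarev's theorem, and the mean of the number of the nontrivial `a` modulo powers of `d` is at most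
`p^(2m-m) = p^m`; `p^m - 1` of them are always there, `p^(m+1) - 1` if the rank of the matrix in (1) is smaller than `(p-1)s`.

The parts were proved together with helpers 16, 18, 129, 139, 142, 153, 162, 176, 177 and 190; the engine is that of projects LS
(`RanksOfSUnitLogarithms`) and LK (`MP_5f2860_nt.MostCyclicExtensions`).
-/

set_option autoImplicit false

namespace Pool.Agent.Results.MP_1f047c_nt.GrossKuzminMostExtensions

open NumberField IsDedekindDomain Filter Topology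

/-- `Lg` is Iwasawa's `p`-adic logarithm on `ℂ_p`, normalised by `Lg p = 0` (the value at `0` is irrelevant). -/
structure IsIwasawaLog (p : ℕ) [Fact p.Prime] (Lg : ℂ_[p] → ℂ_[p]) : Prop where
  mul : ∀ x y : ℂ_[p], x ≠ 0 → y ≠ 0 → Lg (x * y) = Lg x + Lg y
  prime : Lg ((p : ℕ) : ℂ_[p]) = 0
  ser : ∀ z : ℂ_[p], ‖z‖ < 1 →
    HasSum (fun n : ℕ => (-1 : ℂ_[p]) ^ n * z ^ (n + 1) / ((n : ℂ_[p]) + 1)) (Lg (1 + z))

section LogNorm

variable {p : ℕ} [Fact p.Prime] {K : Type} [Field K] [NumberField K]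

/-- The embedding `σ` of `K` belongs to the prime `P` of `K`. -/
def BelongsTo (P : HeightOneSpectrum (𝓞 K)) (σ : K →+* ℂ_[p]) : Prop :=
  ∀ x : 𝓞 K, x ∈ P.asIdeal ↔ ‖σ (x : K)‖ < 1

open Classical in
/-- `λ_P(x) = log_p N_(K_P/ℚ_p)(x)` for `P` above `p`: the local norm is the product of the `σ x` for the embeddings `σ` of `K` which
belong to `P`. -/
noncomputable def logNorm (Lg : ℂ_[p] → ℂ_[p]) (P : HeightOneSpectrum (𝓞 K)) (x : K) : ℂ_[p] :=
  ∑ σ : K →+* ℂ_[p], if BelongsTo P σ then Lg (σ x) else 0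

variable (K) in
/-- The Gross–Kuz'min conjecture for `K` and `p`: there are `R = #{P ∣ p} - 1` numbers `ε i ∈ K^*` which are units at all
primes `P ∤ p`, such that the matrix `(λ_P(ε i))`, `P ∣ p`, has the rank `R`. -/
def GrossKuzmin (Lg : ℂ_[p] → ℂ_[p]) : Prop :=
  ∃ ε : Fin ({P : HeightOneSpectrum (𝓞 K) | (p : 𝓞 K) ∈ P.asIdeal}.ncard - 1) → Kˣ,
    (∀ i, ∀ P : HeightOneSpectrum (𝓞 K), (p : 𝓞 K) ∉ P.asIdeal → P.valuation K ((ε i : Kˣ) : K) = 1) ∧
    ∀ a : Fin ({P : HeightOneSpectrum (𝓞 K) | (p : 𝓞 K) ∈ P.asIdeal}.ncard - 1) → ℂ_[p],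
      (∀ P : HeightOneSpectrum (𝓞 K), (p : 𝓞 K) ∈ P.asIdeal → ∑ i, a i * logNorm Lg P ((ε i : Kˣ) : K) = 0) → a = 0

end LogNorm

section Ensemble

variable {F : Type} [Field F] [NumberField F]

/-- The order of `a` at `v` modulo `p`. -/
noncomputable def orderMod (p : ℕ) (v : HeightOneSpectrum (𝓞 F)) (a : F) : ZMod p :=
  -((WithZero.log (v.valuation F a) : ℤ) : ZMod p)

/-- `a` is the `p`-th power of a nonzero element of the completion of `F` at `v`. -/
def PowerAt (p : ℕ) (v : HeightOneSpectrum (𝓞 F)) (a : F) : Prop :=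
  a ≠ 0 ∧ ∃ s : v.adicCompletion F, (a : v.adicCompletion F) = s ^ p

/-- `v` lies above a prime number `l ≤ y`. -/
def Small (y : ℕ) (v : HeightOneSpectrum (𝓞 F)) : Prop :=
  ∃ l : ℕ, l.Prime ∧ l ≤ y ∧ (l : 𝓞 F) ∈ v.asIdeal

open Classical in
/-- Among the primes not above prime numbers `≤ y` the order of `d` modulo `p` is `z i` at the prime `q i` and `0` at the
others; and at the primes above prime numbers `≤ y` the number `d` is equal to `d₀` up to local `p`-th powers. So for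
nonzero `z i` and different `q i` the extension `F(d^(1/p))` is ramified, among the primes not above prime numbers
`≤ y`, exactly at the `q i`, and its completions at the other primes are those of `F(d₀^(1/p))`. -/
structure Fits (p y : ℕ) (d₀ : F) {k : ℕ} (z : Fin k → ZMod p) (q : Fin k → HeightOneSpectrum (𝓞 F)) (d : F) :
    Prop where
  ne : d ≠ 0
  ram : ∀ v : HeightOneSpectrum (𝓞 F), ¬ Small y v → orderMod p v d = ∑ i, if q i = v then z i else 0
  loc : ∀ v : HeightOneSpectrum (𝓞 F), Small y v → PowerAt p v (d / d₀)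

/-- The ensemble: the tuples of `k` different primes `q i`, not above prime numbers `≤ y`, of norm `≤ X i`, to which a
`d` belongs. -/
def Ensemble (p y : ℕ) (d₀ : F) {k : ℕ} (z : Fin k → ZMod p) (X : Fin k → ℕ) : Set (Fin k → HeightOneSpectrum (𝓞 F)) :=
  {q | (Function.Injective q ∧ ∀ i, ¬ Small y (q i) ∧ Ideal.absNorm (q i).asIdeal ≤ X i) ∧
    ∃ d, Fits p y d₀ z q d}

/-- The number of the places of `G` at which `d₀` is a local `p`-th power. -/
noncomputable def splitG (p : ℕ) (G : Set (HeightOneSpectrum (𝓞 F))) (d₀ : F) : ℕ := {v | v ∈ G ∧ PowerAt p v d₀}.ncard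

end Ensemble

/-- `P X` is true for all large `X 0`, for all `X 1` which are large in terms of `X 0`, …, for all `X (k-1)` which are
large in terms of the others. -/
def Nested : (k : ℕ) → ((Fin k → ℕ) → Prop) → Prop
  | 0, P => P Fin.elim0
  | k + 1, P => Nested k fun X => ∀ᶠ x : ℕ in atTop, P (Fin.snoc (α := fun _ => ℕ) X x)

/-- `L` is the extension `F(d^(1/p))`, of degree `p`. -/
structure IsKummer (p : ℕ) (F L : Type) [Field F] [Field L] [Algebra F L] (d : F) : Prop where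
  deg : Module.finrank F L = p
  root : ∃ x : L, x ^ p = algebraMap F L d

section Units

variable {F : Type} [Field F] [NumberField F] {L : Type} [Field L] [NumberField L] [Algebra F L]

variable (L) in
/-- The `G`-units of `L`: the numbers which are units at all primes `P` of `L` above primes `v ∉ G` of `F`. -/
def GUnits (G : Set (HeightOneSpectrum (𝓞 F))) : Subgroup Lˣ where
  carrier := {x | ∀ v : HeightOneSpectrum (𝓞 F), v ∉ G → ∀ P : HeightOneSpectrum (𝓞 L),
    v.asIdeal.map (algebraMap (𝓞 F) (𝓞 L)) ≤ P.asIdeal → P.valuation L (x : L) = 1}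
  one_mem' := by
    intro v _ P _
    simp
  mul_mem' := by
    intro x y hx hy v hv P hP
    rw [Units.val_mul, map_mul, hx v hv P hP, hy v hv P hP, one_mul]
  inv_mem' := by
    intro x hx v hv P hP
    rw [Units.val_inv_eq_inv_val, map_inv₀, hx v hv P hP, inv_one]

variable (L) in
/-- The group of the `G`-units of `L` of relative norm `1`. -/
noncomputable def NormOne (G : Set (HeightOneSpectrum (𝓞 F))) : Subgroup Lˣ :=
  GUnits L G ⊓ (Units.map (Algebra.norm F : L →* F)).ker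

/-- The group `H` contains `R` elements `ε i` for which the matrix `(λ_P(ε i))`, `P` above elements of `G`, has the rank `R`. -/
def RankAtLeast {p : ℕ} [Fact p.Prime] (Lg : ℂ_[p] → ℂ_[p]) (G : Set (HeightOneSpectrum (𝓞 F))) (H : Subgroup Lˣ)
    (R : ℕ) : Prop :=
  ∃ ε : Fin R → Lˣ, (∀ i, ε i ∈ H) ∧ ∀ a : Fin R → ℂ_[p],
    (∀ v ∈ G, ∀ P : HeightOneSpectrum (𝓞 L), v.asIdeal.map (algebraMap (𝓞 F) (𝓞 L)) ≤ P.asIdeal →
      ∑ i, a i * logNorm Lg P ((ε i : Lˣ) : L) = 0) → a = 0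

end Units

section Proof

theorem nested_iff : ∀ (k : ℕ) (P : (Fin k → ℕ) → Prop), Nested k P ↔ Q283.LQ.Nest k P
  | 0, _ => Iff.rfl
  | k + 1, _ => nested_iff k _

variable {F : Type} [Field F] [NumberField F]

theorem fits_iff {p : ℕ} [Fact p.Prime] {y : ℕ} {d₀ : F} {k : ℕ} {z : Fin k → ZMod p}
    {q : Fin k → HeightOneSpectrum (𝓞 F)} {d : F} : Fits p y d₀ z q d ↔ Q7.LK.Fits p y d₀ z q d := by
  constructor
  · intro h
    exact ⟨h.ne, h.ram, fun v hv => (Q7.LK.t_CPL p F v _).mpr (h.loc v hv)⟩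
  · intro h
    exact ⟨h.ne, h.ram, fun v hv => (Q7.LK.t_CPL p F v _).mp (h.loc v hv)⟩

theorem split_eq (p : ℕ) [Fact p.Prime] (G : Set (HeightOneSpectrum (𝓞 F))) (d₀ : F) :
    splitG p G d₀ = Q7.LS.sX p G d₀ := by
  unfold splitG Q7.LS.sX
  congr 1
  ext v
  exact and_congr Iff.rfl (Q7.LK.t_CPL p F v d₀).symm

theorem logNorm_eq {p : ℕ} [Fact p.Prime] {K : Type} [Field K] [NumberField K] (Lg : ℂ_[p] → ℂ_[p])
    (P : HeightOneSpectrum (𝓞 K)) (x : K) : logNorm Lg P x = Q7.GK.lam Lg P x := rfl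

/-- the complement of the bad set -/
theorem compl_bound {α : Type} {E B G : Set α} (hE : E.Finite) (hB : B ⊆ E) (hG : G ⊆ E) (h : ∀ q ∈ E, q ∈ B ∨ q ∈ G)
    {b : ℝ} (hb : (B.ncard : ℝ) ≤ b * E.ncard) : (1 - b) * E.ncard ≤ (G.ncard : ℝ) := by
  have h1 : E ⊆ B ∪ G := fun q hq => h q hq
  have h2 := Set.ncard_le_ncard h1 ((hE.subset hB).union (hE.subset hG))
  have h3 := Set.ncard_union_le B G
  have h4 : (E.ncard : ℝ) ≤ B.ncard + G.ncard := by exact_mod_cast h2.trans h3
  have h5 : (1 - b) * (E.ncard : ℝ) = E.ncard - b * E.ncard := by ring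
  rw [h5]
  linarith

variable {L : Type} [Field L] [NumberField L] [Algebra F L]

theorem rank_iff {p : ℕ} [Fact p.Prime] (Lg : ℂ_[p] → ℂ_[p]) (G : Set (HeightOneSpectrum (𝓞 F))) (H : Subgroup Lˣ)
    (R : ℕ) : RankAtLeast Lg G H R ↔ Q7.GK.IndG Lg G H R := Iff.rfl

theorem ind_mono {p : ℕ} [Fact p.Prime] {Lg : ℂ_[p] → ℂ_[p]} {G : Set (HeightOneSpectrum (𝓞 F))} {H : Subgroup Lˣ}
    {R R' : ℕ} (hR : R' ≤ R) (h : Q7.GK.IndG Lg G H R) : Q7.GK.IndG Lg G H R' := by
  classical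
  obtain ⟨ε, hε, hi⟩ := h
  refine ⟨fun i => ε (Fin.castLE hR i), fun i => hε _, fun a ha => ?_⟩
  let b : Fin R → ℂ_[p] := fun j => if h : (j : ℕ) < R' then a ⟨j, h⟩ else 0
  have hb : ∀ i : Fin R', b (Fin.castLE hR i) = a i := by
    intro i
    simp [b]
  have hb0 : ∀ j : Fin R, j ∉ Set.range (Fin.castLE hR) → b j = 0 := by
    intro j hj
    simp only [b]
    rw [dif_neg]
    intro h
    exact hj ⟨⟨j, h⟩, by ext; rfl⟩
  have h0 : b = 0 := by
    refine hi b fun v hv P hP => ?_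
    rw [← ha v hv P hP]
    symm
    exact Fintype.sum_of_injective (Fin.castLE hR) (Fin.castLE_injective hR) _ _
      (fun j hj => by rw [hb0 j hj, zero_mul]) (fun i => by rw [hb i])
  funext i
  rw [← hb i, h0]
  rfl

theorem gk_of_ind {p : ℕ} [Fact p.Prime] {Lg : ℂ_[p] → ℂ_[p]}
    {R : ℕ} (h : Q7.GK.IndG Lg {v : HeightOneSpectrum (𝓞 F) | Q7.LK.Dp p v}
      (Q7.LS.SUn L {v : HeightOneSpectrum (𝓞 F) | Q7.LK.Dp p v}) R)
    (hR : {P : HeightOneSpectrum (𝓞 L) | (p : 𝓞 L) ∈ P.asIdeal}.ncard - 1 ≤ R) : GrossKuzmin L Lg := by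
  obtain ⟨ε, hε, hi⟩ := ind_mono hR h
  refine ⟨ε, fun i P hP => ?_, fun a ha => hi a fun v hv P hP => ?_⟩
  · have hv : Q7.LS.Ab (P.under (𝓞 F)) P := (Pool.Agent.Q223.LS.ab_iff _ _).2 rfl
    refine hε i (P.under (𝓞 F)) (fun hd => hP ?_) P hv
    have h1 := hv (Ideal.mem_map_of_mem (algebraMap (𝓞 F) (𝓞 L)) hd)
    rwa [map_natCast] at h1
  · refine ha P ?_
    have h1 := hP (Ideal.mem_map_of_mem (algebraMap (𝓞 F) (𝓞 L)) hv)
    rwa [map_natCast] at h1

theorem ind_of_gk {p : ℕ} [Fact p.Prime] {Lg : ℂ_[p] → ℂ_[p]} (h : GrossKuzmin F Lg) :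
    Q7.GK.IndG (L := F) Lg {v : HeightOneSpectrum (𝓞 F) | Q7.LK.Dp p v}
      (Q7.LS.SUn F {v : HeightOneSpectrum (𝓞 F) | Q7.LK.Dp p v})
      ({v : HeightOneSpectrum (𝓞 F) | Q7.LK.Dp p v}.ncard - 1) := by
  obtain ⟨ε, hε, hi⟩ := h
  refine ⟨ε, fun i v hv P hP => ?_, fun a ha => hi a fun P hP => ?_⟩
  · rw [Pool.Agent.Q177.GK.ab_self hP]
    exact hε i v hv
  · exact ha P hP P (Pool.Agent.Q177.GK.ab_refl P)

end Proof

/-- **Main result.** -/
theorem result (p : ℕ) [Fact p.Prime] (hp : p ≠ 2) (F : Type) [Field F] [NumberField F] (ζ : F)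
    (hζ : IsPrimitiveRoot ζ p) (Lg : ℂ_[p] → ℂ_[p]) (hL : IsIwasawaLog p Lg) :
    ∃ y₀ : ℕ, ∀ y, y₀ ≤ y → ∀ d₀ : F, d₀ ≠ 0 →
      (∀ (k : ℕ) (z : Fin k → ZMod p) (q : Fin k → HeightOneSpectrum (𝓞 F)) (d d' : F),
        Fits p y d₀ z q d → Fits p y d₀ z q d' → ∃ x : F, d = d' * x ^ p) ∧
      ∀ G : Set (HeightOneSpectrum (𝓞 F)), (∀ v ∈ G, (p : 𝓞 F) ∈ v.asIdeal) →
      ∀ m s : ℕ, m = InfinitePlace.nrComplexPlaces F → s = splitG p G d₀ →
      ∀ ε : ℝ, 0 < ε → ∃ k₀ : ℕ, ∀ k, k₀ ≤ k → ∀ z : Fin k → ZMod p, (∀ i, z i ≠ 0) → Nested k fun X =>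
        (Ensemble p y d₀ z X).Finite ∧ (Ensemble p y d₀ z X).Nonempty ∧
        (∀ t : ℕ, 1 ≤ t →
          (1 - (1 / (p : ℝ)) ^ m / ((p : ℝ) ^ t - 1) - ε) * (Ensemble p y d₀ z X).ncard ≤
            ({q ∈ Ensemble p y d₀ z X | ∀ (d : F) (L : Type) [Field L] [NumberField L] [Algebra F L],
              Fits p y d₀ z q d → IsKummer p F L d →
                RankAtLeast Lg G (NormOne L G) ((p - 1) * (s - (t - 1)))}.ncard : ℝ)) ∧
        (1 - (1 / (p : ℝ)) ^ m / ((p : ℝ) - 1) - ε) * (Ensemble p y d₀ z X).ncard ≤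
          ({q ∈ Ensemble p y d₀ z X | ∀ (d : F) (L : Type) [Field L] [NumberField L] [Algebra F L],
            Fits p y d₀ z q d → IsKummer p F L d →
              (∀ R : ℕ, RankAtLeast (L := F) Lg G (GUnits F G) R →
                RankAtLeast Lg G (GUnits L G) ((p - 1) * s + R)) ∧
              ((∀ v : HeightOneSpectrum (𝓞 F), (p : 𝓞 F) ∈ v.asIdeal → v ∈ G) →
                (GrossKuzmin F Lg ∨ (IsGalois ℚ F ∧ ∀ g h : F ≃ₐ[ℚ] F, g * h = h * g)) →
                  GrossKuzmin L Lg)}.ncard : ℝ) := by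
  have hL' : W289.SL.IsIwasawaLog p Lg := ⟨hL.mul, hL.prime, hL.ser⟩
  obtain ⟨y1, hy1⟩ := Q7.GK.sharesG Q7.LS.t_NSB Q7.GK.t_GRK Q7.GK.t_GFR Q7.GK.t_GCR1 Q7.GK.t_GCR2 Q7.GK.t_GBRG
    Q7.LS.t_MEANN Q7.GK.t_GLCN Q7.LS.t_SUMC p hp Lg hL' F ζ hζ
  obtain ⟨y2, hy2⟩ := Q7.LK.uniq Q7.LK.t_BAS Q7.LK.t_BASE p hp F ζ hζ
  refine ⟨max (max y1 y2) p, fun y hy d₀ hd₀ => ⟨fun k z q d d' hd hd' => ?_,
    fun G hG m s hm hs ε hε => ?_⟩⟩
  · obtain ⟨x, hx⟩ := hy2 y (le_trans (le_max_right _ _) (le_trans (le_max_left _ _) hy)) d₀ hd₀ k z q d d'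
      (fits_iff.mp hd) (fits_iff.mp hd')
    refine ⟨x, ?_⟩
    rw [← hx, mul_div_cancel₀ _ hd'.ne]
  have hyp : p ≤ y := (le_max_right _ _).trans hy
  have hpp1 : 0 < p - 1 := Nat.sub_pos_of_lt (Fact.out : p.Prime).one_lt
  have hGS : ∀ v ∈ G, Q283.LQ.Sm y v := fun v hv => ⟨p, Fact.out, hyp, hG v hv⟩
  have hSm : {v : HeightOneSpectrum (𝓞 F) | Q283.LQ.Sm y v}.Finite := (Q7.LK.t_LOC p hp F ζ hζ y hyp).1
  have hGf : G.Finite := hSm.subset fun v hv => hGS v hv
  obtain ⟨k0, hk0⟩ := hy1 y (le_trans (le_max_left _ _) (le_trans (le_max_left _ _) hy)) G hG hGf d₀ hd₀ ε hε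
  refine ⟨max k0 1, fun k hk z hz => (nested_iff k _).mpr (Q7.LK.nest_mono k _ _ (fun X hX => ?_)
    (hk0 k (le_trans (le_max_left _ _) hk) z hz))⟩
  have hk1 : 1 ≤ k := le_trans (le_max_right _ _) hk
  obtain ⟨hfin, hpos, hB⟩ := hX
  have hE : Ensemble p y d₀ z X = Q7.LS.Ens p y d₀ z X := by
    ext q
    simp only [Ensemble, Q7.LS.Ens, Q283.LQ.Box, Set.mem_ofPred_eq, fits_iff]
    rfl
  rw [← hm, ← hE] at hB
  rw [← hE] at hpos
  have hEfin : (Ensemble p y d₀ z X).Finite := by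
    rw [hE]
    exact hfin.subset (fun q hq => hq.1)
  have hsd : ∀ q d, Fits p y d₀ z q d → ∀ G' : Set (HeightOneSpectrum (𝓞 F)), (∀ v ∈ G', Q7.LK.Dp p v) →
      Q7.LS.sX p G' d = Q7.LS.sX p G' d₀ := fun q d hd G' hG' =>
    (Q7.LS.t_BRG p hp F ζ hζ y hyp ∅ G' (fun v hv => absurd hv (Set.notMem_empty v)) (Set.empty_disjoint _)
      (fun v hv => ⟨p, Fact.out, hyp, hG' v hv⟩) d₀ hd₀ k z q d (fits_iff.mp hd)).1
  have hs' : Q7.LS.sX p G d₀ = s := by rw [hs, split_eq]
  -- not bad: the rank for the norm one group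
  have hgood : ∀ q ∈ Ensemble p y d₀ z X, ∀ t : ℕ, 1 ≤ t →
      q ∉ {q ∈ Ensemble p y d₀ z X | ∃ d, Q7.LK.Fits p y d₀ z q d ∧
        ∃ (L : Type) (_ : Field L) (_ : NumberField L) (_ : Algebra F L), Q7.LK.Kum p F L d ∧
          Q7.GK.OutMG L Lg G ((p - 1) * (m + t - 1) + 1)} →
      ∀ (d : F) (L : Type) [Field L] [NumberField L] [Algebra F L], Fits p y d₀ z q d → IsKummer p F L d →
        Q7.GK.IndG Lg G (Q7.LS.NS L G) ((p - 1) * (s - (t - 1))) := by
    intro q hq t ht hc d L _ _ _ hd hK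
    have hnp := Q7.LK.fits_not_pow (hE ▸ hq : q ∈ Q7.LS.Ens p y d₀ z X).1 hk1 hz (fits_iff.mp hd)
    have hK' : Q7.LK.Kum p F L d := ⟨hK.deg, hK.root⟩
    by_contra hind
    refine hc ⟨hq, d, fits_iff.mp hd, L, inferInstance, inferInstance, inferInstance, hK', ?_⟩
    rcases Nat.lt_or_ge s t with h0 | h0
    · exfalso
      refine hind ?_
      have h1 : (p - 1) * (s - (t - 1)) = 0 := by
        rw [Nat.sub_eq_zero_of_le (show s ≤ t - 1 by omega), mul_zero]
      rw [h1]
      exact ⟨fun i => i.elim0, fun i => i.elim0, fun a _ => Subsingleton.elim _ _⟩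
    · refine Q7.GK.out_of_rankG Q7.LS.t_NSB Q7.GK.t_GRK hp hL' hζ hK' hnp hG hGf hind ?_
      rw [hsd q d hd G hG, hs', ← hm]
      have h2 : (p - 1) * (m + t - 1) + (p - 1) * (s - (t - 1)) = (p - 1) * (m + s) := by
        rw [← Nat.mul_add]
        congr 1
        omega
      omega
  refine ⟨hEfin, ?_, fun t ht => ?_, ?_⟩
  · rw [← Set.ncard_pos hEfin]
    exact_mod_cast hpos
  · refine le_trans (le_of_eq (by ring)) (compl_bound hEfin (fun q hq => hq.1) (fun q hq => hq.1)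
      (fun q hq => ?_) (hB t ht))
    by_cases hc : q ∈ {q ∈ Ensemble p y d₀ z X | ∃ d, Q7.LK.Fits p y d₀ z q d ∧
        ∃ (L : Type) (_ : Field L) (_ : NumberField L) (_ : Algebra F L), Q7.LK.Kum p F L d ∧
          Q7.GK.OutMG L Lg G ((p - 1) * (m + t - 1) + 1)}
    · exact Or.inl hc
    · exact Or.inr ⟨hq, fun d L _ _ _ hd hK => hgood q hq t ht hc d L hd hK⟩
  · have hB1 := hB 1 le_rfl
    rw [pow_one] at hB1
    refine le_trans (le_of_eq (by ring)) (compl_bound hEfin (fun q hq => hq.1) (fun q hq => hq.1)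
      (fun q hq => ?_) hB1)
    by_cases hc : q ∈ {q ∈ Ensemble p y d₀ z X | ∃ d, Q7.LK.Fits p y d₀ z q d ∧
        ∃ (L : Type) (_ : Field L) (_ : NumberField L) (_ : Algebra F L), Q7.LK.Kum p F L d ∧
          Q7.GK.OutMG L Lg G ((p - 1) * (m + 1 - 1) + 1)}
    · exact Or.inl hc
    · refine Or.inr ⟨hq, ?_⟩
      intro d L _ _ _ hd hK
      have hnp := Q7.LK.fits_not_pow (hE ▸ hq : q ∈ Q7.LS.Ens p y d₀ z X).1 hk1 hz (fits_iff.mp hd)
      have hK' : Q7.LK.Kum p F L d := ⟨hK.deg, hK.root⟩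
      have h1 := hgood q hq 1 le_rfl hc d L hd hK
      rw [Nat.sub_self, Nat.sub_zero] at h1
      refine ⟨fun R hR => (Q7.GK.t_GFIN p hp Lg hL' F L ζ d hζ hK' hnp G hG).1 _ R h1 hR, fun hall hgk0 => ?_⟩
      have hgk : GrossKuzmin F Lg := by
        rcases hgk0 with h | ⟨ha, hb⟩
        · exact h
        · exact Q7.GK.t_GAB p hp Lg hL' F ha hb
      have hGe : G = {v : HeightOneSpectrum (𝓞 F) | Q7.LK.Dp p v} := by
        ext v
        exact ⟨fun hv => hG v hv, fun hv => hall v hv⟩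
      obtain ⟨h2, h3⟩ := Q7.GK.t_GFIN p hp Lg hL' F L ζ d hζ hK' hnp {v : HeightOneSpectrum (𝓞 F) | Q7.LK.Dp p v}
        (fun v hv => hv)
      have h4 : Q7.LS.sX p {v : HeightOneSpectrum (𝓞 F) | Q7.LK.Dp p v} d = s := by
        rw [← hGe, hsd q d hd G hG, hs']
      rw [h4] at h3
      rw [hGe] at h1
      refine gk_of_ind (h2 _ _ h1 (ind_of_gk hgk)) ?_
      omega

end Pool.Agent.Results.MP_1f047c_nt.GrossKuzminMostExtensions
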