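import Pool.Agent.Q138.PS.VA
import Pool.Agent.Results.MP_1f047c_nt.TuplesPowerSaving

/-!
# Singular matrices of logarithms and the logarithms of the integers close to `α P(n)`

Let `q ≥ 2` and let `𝒞` be a countable set of complex numbers. Outside a set of real numbers of Hausdorff dimension at most
`q / (q + 1 / (q 2 ^ (q - 1)))` (that is `8 / 9` for `q = 2`) every `α > 0` has the following property. There is `η > 0` such that
for ALL number fields `K`, ALL `K`-spaces `V` spanned by finitely many elements of `𝒞` for which Q1 holds over `K` (for instance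
`V = 0` or `dim V = 1`) and ALL distinct algebraic numbers `θ_1, ..., θ_r` there is `κ > 0` such that for all large `N` and ALL
integral polynomials `P` of degree `q` with positive leading coefficient and coefficients of size at most `N ^ η`: for all but
`N ^ (1 - κ)` of the `n ≤ N`, for EVERY integer `t ≥ 2` with `|t - ⌊α P(n)⌋| ≤ N ^ κ` and every choice of the logarithms `l_j` of
the numbers `t + θ_j`, the `l_j` are `K`-linearly independent modulo `V`, and Q1 holds over `K` for `V + K l_1 + ⋯ + K l_r`.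
-/

set_option autoImplicit false

open Module

namespace Pool.Agent.Results.MP_1f047c_nt.LogarithmsAlongRealMultiples

open Finset Filter Topology
open Pool.Agent.Q138.PS
open IntermediateField

/-- Every singular square matrix, of any size, with entries in the `K`-space `V` satisfies the conclusion of Q1 over
`K`. -/
def Q1Holds {K : IntermediateField ℚ ℂ} (V : Submodule K ℂ) : Prop :=
  ∀ N : ℕ, 1 ≤ N → ∀ M : Matrix (Fin N) (Fin N) ℂ, (∀ i j, M i j ∈ V) → M.det = 0 →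
    ∃ w v : Fin N → K, w ≠ 0 ∧ v ≠ 0 ∧ ∑ i, ∑ j, (w i : ℂ) * M i j * (v j : ℂ) = 0

/-- The numbers `l_j` are `K`-linearly independent modulo `V`, and Q1 holds for the space generated by `V` and the `l_j`. -/
def Extends {K : IntermediateField ℚ ℂ} (V : Submodule K ℂ) {r : ℕ} (l : Fin r → ℂ) : Prop :=
  finrank K (V ⊔ Submodule.span K (Set.range l) : Submodule K ℂ) = finrank K V + r ∧
    Q1Holds (V ⊔ Submodule.span K (Set.range l))

/-- `t ≥ 2` and `Extends V l` fails for some choice of the logarithms `l` of the numbers `t + θ_j` -/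
def Fails {K : IntermediateField ℚ ℂ} (V : Submodule K ℂ) {r : ℕ} (θ : Fin r → ℂ) (t : ℕ) : Prop :=
  2 ≤ t ∧ ∃ l : Fin r → ℂ, (∀ j, Complex.exp (l j) = t + θ j) ∧ ¬ Extends V l

open Classical in
/-- the number of the `1 ≤ n ≤ N` such that `Fails V θ t` for some `t` with `|t - ⌊α P(n)⌋| ≤ W` -/
noncomputable def bad {K : IntermediateField ℚ ℂ} (V : Submodule K ℂ) {r : ℕ} (θ : Fin r → ℂ) (W : ℕ) (α : ℝ)
    (P : Polynomial ℤ) (N : ℕ) : ℕ :=
  ((Icc 1 N).filter fun n : ℕ => ∃ t : ℕ, Fails V θ t ∧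
    |(t : ℤ) - (⌊α * ((P.eval (n : ℤ) : ℤ) : ℝ)⌋₊ : ℤ)| ≤ W).card

theorem bad_eq {K : IntermediateField ℚ ℂ} (V : Submodule K ℂ) {r : ℕ} (θ : Fin r → ℂ) (W : ℕ) (α : ℝ)
    (P : Polynomial ℤ) (N : ℕ) : (bad V θ W α P N : ℝ) = cnP (nb (Fails V θ) W) α P N := by
  classical
  unfold bad cnP cn
  refine congrArg _ (congrArg _ ?_)
  ext n
  rw [mem_filter, mem_filter]
  refine and_congr_right fun _ => exists_congr fun j => and_congr_right fun _ => ?_
  rw [abs_le]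
  omega

theorem few {K : IntermediateField ℚ ℂ} (hK : FiniteDimensional ℚ K) (V : Submodule K ℂ) (hV : Module.Finite K V) {r : ℕ}
    (hQ : finrank K V ≤ 1 ∨ Q1Holds V) (θ : Fin r → ℂ) (hθ : ∀ j, IsAlgebraic ℚ (θ j)) (hinj : Function.Injective θ) :
    ∃ c C : ℝ, 0 < c ∧ ∀ Y : ℕ, 1 ≤ Y → cn (Fails V θ) Y ≤ C * (Y : ℝ) ^ (1 - c) := by
  obtain ⟨c, hc, C, h⟩ := TuplesPowerSaving.result θ hθ hinj 1 (finrank ℚ K) (finrank K V)
  refine ⟨c, C, hc, fun Y hY => ?_⟩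
  obtain ⟨h1, h2⟩ := h K hK le_rfl V hV le_rfl hQ Y hY
  rw [Nat.cast_one] at h2
  refine le_trans (cn_of_tuples _ _ _ h1 ?_) h2
  rintro t - ht2 ⟨ht3, l, hl, hbad⟩
  refine ⟨fun _ => ⟨ht3, ht2⟩, fun p => l p.2, fun p => hl p.2, fun hF => hbad ?_⟩
  have hr : Set.range (fun p : Fin 1 × Fin r => l p.2) = Set.range l := by
    ext x
    constructor
    · rintro ⟨p, rfl⟩
      exact ⟨p.2, rfl⟩
    · rintro ⟨j, rfl⟩
      exact ⟨(0, j), rfl⟩
  unfold TuplesPowerSaving.Extends at hF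
  rw [hr, one_mul] at hF
  exact hF

theorem prim (K : IntermediateField ℚ ℂ) (hK : FiniteDimensional ℚ K) : ∃ x : ℂ, IsAlgebraic ℚ x ∧ K = ℚ⟮x⟯ := by
  obtain ⟨a, ha⟩ := @Field.exists_primitive_element ℚ K _ _ (IntermediateField.algebra' K) hK inferInstance
  refine ⟨a, ?_, ?_⟩
  · have h1 : IsAlgebraic ℚ a := Algebra.IsAlgebraic.isAlgebraic a
    exact h1.algebraMap
  · have h1 := congrArg IntermediateField.lift ha
    rw [IntermediateField.lift_adjoin_simple, IntermediateField.lift_top] at h1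
    exact h1.symm

/-- **Theorem.** -/
theorem result (q : ℕ) (hq : 2 ≤ q) (𝒞 : Set ℂ) (h𝒞 : 𝒞.Countable) :
    ∃ E : Set ℝ, dimH E ≤ ENNReal.ofReal (q / (q + 1 / ((q : ℝ) * 2 ^ (q - 1)))) ∧ ∀ α : ℝ, 0 < α → α ∉ E →
      ∃ η : ℝ, 0 < η ∧ ∀ K : IntermediateField ℚ ℂ, FiniteDimensional ℚ K → ∀ (s : ℕ) (v : Fin s → ℂ), (∀ i, v i ∈ 𝒞) →
      (finrank K (Submodule.span K (Set.range v)) ≤ 1 ∨ Q1Holds (Submodule.span K (Set.range v))) →
      ∀ (r : ℕ) (θ : Fin r → ℂ), (∀ j, IsAlgebraic ℚ (θ j)) → Function.Injective θ →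
      ∃ κ : ℝ, 0 < κ ∧ ∀ᶠ N : ℕ in atTop, ∀ P : Polynomial ℤ, P.natDegree = q → 0 < P.leadingCoeff →
        (∀ j, |((P.coeff j : ℤ) : ℝ)| ≤ (N : ℝ) ^ η) →
        (bad (Submodule.span K (Set.range v)) θ ⌊(N : ℝ) ^ κ⌋₊ α P N : ℝ) ≤ (N : ℝ) ^ (1 - κ) := by
  classical
  have hA : Countable {x : ℂ // IsAlgebraic ℚ x} := (Algebraic.countable ℚ ℂ).to_subtype
  have hC : Countable {x : ℂ // x ∈ 𝒞} := h𝒞.to_subtype
  obtain ⟨E, hE, hg⟩ := exc_win (ι := {x : ℂ // IsAlgebraic ℚ x} × (Σ s : ℕ, Fin s → {x : ℂ // x ∈ 𝒞}) ×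
    (Σ r : ℕ, Fin r → {x : ℂ // IsAlgebraic ℚ x})) q hq
    (fun i => Fails (K := ℚ⟮i.1.1⟯) (Submodule.span ℚ⟮i.1.1⟯ (Set.range fun j => (i.2.1.2 j : ℂ))) (fun j => (i.2.2.2 j : ℂ)))
  refine ⟨E, hE, fun α hα hαE => ?_⟩
  obtain ⟨η, hη, h1⟩ := hg α hα hαE
  refine ⟨η, hη, fun K hK s v hv hQ r θ hθ hinj => ?_⟩
  obtain ⟨x, hx, rfl⟩ := prim K hK
  have hV : Module.Finite ℚ⟮x⟯ (Submodule.span ℚ⟮x⟯ (Set.range v)) :=
    Module.Finite.span_of_finite _ (Set.finite_range v)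
  obtain ⟨c, C, hc, h2⟩ := few hK _ hV hQ θ hθ hinj
  obtain ⟨κ, hκ, -, h3⟩ := h1 (⟨x, hx⟩, ⟨s, fun j => ⟨v j, hv j⟩⟩, ⟨r, fun j => ⟨θ j, hθ j⟩⟩) C c hc h2
  refine ⟨κ, hκ, ?_⟩
  filter_upwards [h3] with N hN
  intro P hdeg hlead hco
  rw [bad_eq]
  exact hN _ (Nat.floor_le (by positivity)) P hdeg hlead hco

end Pool.Agent.Results.MP_1f047c_nt.LogarithmsAlongRealMultiples
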