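import Pool.Agent.Q7.LS.All2
import Pool.Agent.Q7.LK.Uni

/-!
# The ranks of the matrices of `p`-adic logarithms of `S`-units in most Kummer extensions

Let `p` be an odd prime and `F` any number field which contains a primitive `p`-th root of unity, `m` the number of its
complex places. We consider the extensions `L = F(d^(1/p))` of degree `p` with prescribed completions at all places above
the prime numbers `≤ y` (those of `F(d₀^(1/p))`), and with prescribed orders `z_0, …, z_(k-1)` modulo `p`, different from `0`,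
of `d` at `k` further primes `q_0, …, q_(k-1)`, of norms `≤ X_0, …, X_(k-1)` (the extension is unramified at all other
primes), for large `k`, `X_0`, then `X_1` large in terms of `X_0`, and so on.

Let `T` be a set of primes of `F` above `p` and `S` a set of primes of `F` above prime numbers `≤ y`, disjoint from `T`; let
`N = ∑_(v ∈ T) [F_v : ℚ_p]` be the number of the embeddings `F → ℂ_p` above `T`, and `s ≥ 1` the number of the `v ∈ S` at
which `d₀` is a local `p`-th power (they split completely in all these `L`). The `S`-units of `L` of relative norm `1`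
form a group `U` of rank `(p-1)(m+s)`, and the vectors `(log_p σ(u))_σ`, where `σ` runs through the `pN` embeddings
`L → ℂ_p` above `T`, lie in a space of dimension `(p-1)N`.

(1) For every `t ≥ 1` the matrix of the logarithms of a basis of `U` has a rank `≥ (p-1)(min(m+s, N) - (t-1))` for at least
the share `1 - p^(-|m+s-N|)/(p^t-1) - ε` of the fields `L`; so for `t = 1` it has the maximal rank `(p-1) min(m+s, N)`, which
the structural rank conjecture predicts.

(2) If `m + s ≤ N` then for at least the share `1 - p^(-|m+s-N|)/(p-1) - ε` of the `L` the following is true for EVERY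
group `H` of `S`-units of `L`: if multiplicatively independent elements of `H` have `t` linearly independent relations
over `ℂ_p` between the rows of the matrix of their logarithms then the same is true in the group of the norms of the
elements of `H` in `F`: the defect does not increase.

Proof. `U` modulo torsion is a module over `ℤ[μ_p]`, and the `p`-adic relations between its elements at the places above `T` form a
saturated submodule of its `p`-adic completion; by the `p`-adic pigeonhole principle its rank is at least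
`(p-1)(m+s-N)`. Each `ℤ_p[μ_p]`-rank of the relations gives an element `w ∈ U`, independent modulo `p`-th powers and the
`ζ^j σ(η)/η`, such that `w η^p` comes arbitrarily close to roots of unity of `p`-power order at the places above `T`. By Hilbert's
theorem 90 `w = σ(y)/y`, and `a = N(y)`, up to `p`-th powers not a power of `d`, has order divisible by `p` at the
primes outside `S` which are unramified in `L`, is locally a power of `d` at the ramified ones, belongs to one of `p`
local classes at each place of `T` and one of `p^([F_v:ℚ_p]+1)` classes at the other places above `p`, with one factor `p`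
more at the `s` places of `S` which split. The power residue symbols which describe the group of these `a`
are equidistributed over the ensemble by the law of reciprocity and Chebotarev's theorem, and the mean of the number of the
nontrivial `a` modulo powers of `d` is at most `p^(m+s-N)`; at least `p^(m+s-N) - 1` of them are always there if `m + s ≥ N`.

The parts were proved together with helpers 26, 31, 77, 79, 94, 113, 124, 151, 173, 176, 181, 190, 223, 224 and 252; the
engine is that of project LK (helpers 14, 22, 65, 123, 129, 150, 153, 162, 224, 241, 262, 265, 277 and 285).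
-/

set_option autoImplicit false

namespace Pool.Agent.Results.MP_1f047c_nt.RanksOfSUnitLogarithms

open NumberField IsDedekindDomain Filter Topology

/-- `Lg` is Iwasawa's `p`-adic logarithm on `ℂ_p`, normalised by `Lg p = 0` (the value at `0` is irrelevant). -/
structure IsIwasawaLog (p : ℕ) [Fact p.Prime] (Lg : ℂ_[p] → ℂ_[p]) : Prop where
  mul : ∀ x y : ℂ_[p], x ≠ 0 → y ≠ 0 → Lg (x * y) = Lg x + Lg y
  prime : Lg ((p : ℕ) : ℂ_[p]) = 0
  ser : ∀ z : ℂ_[p], ‖z‖ < 1 →
    HasSum (fun n : ℕ => (-1 : ℂ_[p]) ^ n * z ^ (n + 1) / ((n : ℂ_[p]) + 1)) (Lg (1 + z))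

section Ensemble

variable {F : Type} [Field F] [NumberField F]

/-- The order of `a` at `v` modulo `p`. -/
noncomputable def orderMod (p : ℕ) (v : HeightOneSpectrum (𝓞 F)) (a : F) : ZMod p :=
  -((WithZero.log (v.valuation F a) : ℤ) : ZMod p)

/-- `a` is the `p`-th power of a nonzero element of the completion of `F` at `v`. -/
def PowerAt (p : ℕ) (v : HeightOneSpectrum (𝓞 F)) (a : F) : Prop :=
  a ≠ 0 ∧ ∃ s : v.adicCompletion F, (a : v.adicCompletion F) = s ^ p

/-- `v` lies above a prime number `l ≤ y`. -/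
def Small (y : ℕ) (v : HeightOneSpectrum (𝓞 F)) : Prop :=
  ∃ l : ℕ, l.Prime ∧ l ≤ y ∧ (l : 𝓞 F) ∈ v.asIdeal

open Classical in
/-- Among the primes not above prime numbers `≤ y` the order of `d` modulo `p` is `z i` at the prime `q i` and `0` at the
others; and at the primes above prime numbers `≤ y` the number `d` is equal to `d₀` up to local `p`-th powers. So for
nonzero `z i` and different `q i` the extension `F(d^(1/p))` is ramified, among the primes not above prime numbers
`≤ y`, exactly at the `q i`, and its completions at the other primes are those of `F(d₀^(1/p))`. -/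
structure Fits (p y : ℕ) (d₀ : F) {k : ℕ} (z : Fin k → ZMod p) (q : Fin k → HeightOneSpectrum (𝓞 F)) (d : F) :
    Prop where
  ne : d ≠ 0
  ram : ∀ v : HeightOneSpectrum (𝓞 F), ¬ Small y v → orderMod p v d = ∑ i, if q i = v then z i else 0
  loc : ∀ v : HeightOneSpectrum (𝓞 F), Small y v → PowerAt p v (d / d₀)

/-- The ensemble: the tuples of `k` different primes `q i`, not above prime numbers `≤ y`, of norm `≤ X i`, to which a
`d` belongs. -/
def Ensemble (p y : ℕ) (d₀ : F) {k : ℕ} (z : Fin k → ZMod p) (X : Fin k → ℕ) : Set (Fin k → HeightOneSpectrum (𝓞 F)) :=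
  {q | (Function.Injective q ∧ ∀ i, ¬ Small y (q i) ∧ Ideal.absNorm (q i).asIdeal ≤ X i) ∧
    ∃ d, Fits p y d₀ z q d}

open Classical in
/-- `[F_v : ℚ_p]` if `v` lies above `p`, otherwise `0`. -/
noncomputable def localDegree (p : ℕ) (v : HeightOneSpectrum (𝓞 F)) : ℕ :=
  if (p : 𝓞 F) ∈ v.asIdeal then v.asIdeal.ramificationIdx ℤ * v.asIdeal.inertiaDeg ℤ else 0

/-- `N = ∑ [F_v : ℚ_p]`, `v ∈ T`: the number of the embeddings `F → ℂ_p` above `T`. -/
noncomputable def degT (p : ℕ) (T : Set (HeightOneSpectrum (𝓞 F))) : ℕ := ∑ᶠ v : T, localDegree p v.1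

/-- The number of the places of `S` at which `d₀` is a local `p`-th power. -/
noncomputable def splitS (p : ℕ) (S : Set (HeightOneSpectrum (𝓞 F))) (d₀ : F) : ℕ := {v | v ∈ S ∧ PowerAt p v d₀}.ncard

end Ensemble

/-- `P X` is true for all large `X 0`, for all `X 1` which are large in terms of `X 0`, …, for all `X (k-1)` which are
large in terms of the others. -/
def Nested : (k : ℕ) → ((Fin k → ℕ) → Prop) → Prop
  | 0, P => P Fin.elim0
  | k + 1, P => Nested k fun X => ∀ᶠ x : ℕ in atTop, P (Fin.snoc (α := fun _ => ℕ) X x)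

/-- `L` is the extension `F(d^(1/p))`, of degree `p`. -/
structure IsKummer (p : ℕ) (F L : Type) [Field F] [Field L] [Algebra F L] (d : F) : Prop where
  deg : Module.finrank F L = p
  root : ∃ x : L, x ^ p = algebraMap F L d

section Logarithms

variable {F : Type} [Field F] [NumberField F] {L : Type} [Field L] [NumberField L] [Algebra F L]

variable (L) in
/-- The `S`-units of `L`: the numbers which are units at all primes `P` of `L` above primes `v ∉ S` of `F`. -/
def SUnits (S : Set (HeightOneSpectrum (𝓞 F))) : Subgroup Lˣ where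
  carrier := {x | ∀ v : HeightOneSpectrum (𝓞 F), v ∉ S → ∀ P : HeightOneSpectrum (𝓞 L),
    v.asIdeal.map (algebraMap (𝓞 F) (𝓞 L)) ≤ P.asIdeal → P.valuation L (x : L) = 1}
  one_mem' := by
    intro v _ P _
    simp
  mul_mem' := by
    intro x y hx hy v hv P hP
    rw [Units.val_mul, map_mul, hx v hv P hP, hy v hv P hP, one_mul]
  inv_mem' := by
    intro x hx v hv P hP
    rw [Units.val_inv_eq_inv_val, map_inv₀, hx v hv P hP, inv_one]

variable (F L) in
/-- The relative norm. -/
noncomputable def relNorm : Lˣ →* Fˣ := Units.map (Algebra.norm F : L →* F)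

variable (L) in
/-- The group `U` of the `S`-units of `L` of relative norm `1`. -/
noncomputable def NormOne (S : Set (HeightOneSpectrum (𝓞 F))) : Subgroup Lˣ := SUnits L S ⊓ (relNorm F L).ker

/-- The embedding `σ` of `L` lies above a prime of `F` which belongs to `T`. -/
def Over {p : ℕ} [Fact p.Prime] (T : Set (HeightOneSpectrum (𝓞 F))) (σ : L →+* ℂ_[p]) : Prop :=
  ∃ v ∈ T, ∀ x ∈ v.asIdeal, ‖σ (algebraMap F L (x : F))‖ < 1

/-- The group `H` contains `R` elements `ε i` for which the matrix `(log σ(ε i))`, `σ` above `T`, has the rank `R`. -/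
def RankAtLeast {p : ℕ} [Fact p.Prime] (Lg : ℂ_[p] → ℂ_[p]) (T : Set (HeightOneSpectrum (𝓞 F))) (H : Subgroup Lˣ)
    (R : ℕ) : Prop :=
  ∃ ε : Fin R → Lˣ, (∀ i, ε i ∈ H) ∧ ∀ a : Fin R → ℂ_[p],
    (∀ σ : L →+* ℂ_[p], Over T σ → ∑ i, a i * Lg (σ ((ε i : Lˣ) : L)) = 0) → a = 0

/-- The group `H` contains multiplicatively independent elements `ε i` with `t` linearly independent relations
`∑ a_i log σ(ε i) = 0` (all `σ` above `T`) over `ℂ_p`: the number of the `ε i` exceeds the rank of the matrix of their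
logarithms by at least `t`. -/
def DefectAtLeast {p : ℕ} [Fact p.Prime] (Lg : ℂ_[p] → ℂ_[p]) (T : Set (HeightOneSpectrum (𝓞 F))) (H : Subgroup Lˣ)
    (t : ℕ) : Prop :=
  ∃ (n : ℕ) (ε : Fin n → Lˣ), (∀ i, ε i ∈ H) ∧ (∀ c : Fin n → ℤ, ∏ i, ε i ^ c i = 1 → c = 0) ∧
    ∃ a : Fin t → Fin n → ℂ_[p], LinearIndependent ℂ_[p] a ∧
      ∀ j, ∀ σ : L →+* ℂ_[p], Over T σ → ∑ i, a j i * Lg (σ ((ε i : Lˣ) : L)) = 0

end Logarithms

section Proof

theorem nested_iff : ∀ (k : ℕ) (P : (Fin k → ℕ) → Prop), Nested k P ↔ Q283.LQ.Nest k P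
  | 0, _ => Iff.rfl
  | k + 1, _ => nested_iff k _

variable {F : Type} [Field F] [NumberField F]

theorem fits_iff {p : ℕ} [Fact p.Prime] {y : ℕ} {d₀ : F} {k : ℕ} {z : Fin k → ZMod p}
    {q : Fin k → HeightOneSpectrum (𝓞 F)} {d : F} : Fits p y d₀ z q d ↔ Q7.LK.Fits p y d₀ z q d := by
  constructor
  · intro h
    exact ⟨h.ne, h.ram, fun v hv => (Q7.LK.t_CPL p F v _).mpr (h.loc v hv)⟩
  · intro h
    exact ⟨h.ne, h.ram, fun v hv => (Q7.LK.t_CPL p F v _).mp (h.loc v hv)⟩

theorem split_eq (p : ℕ) [Fact p.Prime] (S : Set (HeightOneSpectrum (𝓞 F))) (d₀ : F) :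
    splitS p S d₀ = Q7.LS.sX p S d₀ := by
  unfold splitS Q7.LS.sX
  congr 1
  ext v
  exact and_congr Iff.rfl (Q7.LK.t_CPL p F v d₀).symm

theorem degT_eq (p : ℕ) (T : Set (HeightOneSpectrum (𝓞 F))) : degT p T = Q7.LS.dT p T := rfl

/-- `p`-adic integral vectors which are linearly independent over `ℤ_p` are so over `ℂ_p` -/
theorem indep_Cp {p : ℕ} [Fact p.Prime] {t n : ℕ} {b : Fin t → Fin n → ℤ_[p]} (hb : LinearIndependent ℤ_[p] b) :
    LinearIndependent ℂ_[p] (fun j i => (((b j i : ℤ_[p]) : ℚ_[p]) : ℂ_[p])) := by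
  classical
  let f : (Fin n → ℤ_[p]) →ₗ[ℤ_[p]] (Fin n → ℚ_[p]) := (Algebra.linearMap ℤ_[p] ℚ_[p]).compLeft (Fin n)
  have hf : LinearMap.ker f = ⊥ := by
    rw [LinearMap.ker_eq_bot]
    intro x y hxy
    funext i
    have h := congrFun hxy i
    exact Subtype.ext h
  have h1 : LinearIndependent ℤ_[p] (fun j => f (b j)) := hb.map' f hf
  have h2 : LinearIndependent ℚ_[p] (fun j => f (b j)) := (LinearIndependent.iff_fractionRing ℤ_[p] ℚ_[p]).mp h1
  have h3 : Function.Injective (Fintype.linearCombination ℚ_[p] (fun j => f (b j))) := by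
    rw [← LinearMap.ker_eq_bot]
    rw [Fintype.linearIndependent_iff] at h2
    rw [LinearMap.ker_eq_bot']
    intro c hc
    funext i
    exact h2 c (by rw [← Fintype.linearCombination_apply]; exact hc) i
  obtain ⟨g, hg⟩ := LinearMap.exists_leftInverse_of_injective _ (LinearMap.ker_eq_bot.mpr h3)
  have h4 : ∀ j j', ∑ i, f (b j) i * g (Pi.single i 1) j' = if j = j' then 1 else 0 := by
    intro j j'
    have h5 := LinearMap.congr_fun hg (Pi.single j 1)
    have h6 : Fintype.linearCombination ℚ_[p] (fun j => f (b j)) (Pi.single j 1) = f (b j) := by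
      rw [Fintype.linearCombination_apply_single, one_smul]
    rw [LinearMap.comp_apply, h6, LinearMap.id_apply] at h5
    have h7 : f (b j) = ∑ i, f (b j) i • (Pi.single i (1 : ℚ_[p]) : Fin n → ℚ_[p]) := by
      funext i
      rw [Finset.sum_apply, Finset.sum_eq_single i]
      · simp
      · intro k _ hk
        simp [Ne.symm hk]
      · intro h
        exact absurd (Finset.mem_univ _) h
    rw [h7, map_sum] at h5
    have h8 := congrFun h5 j'
    rw [Finset.sum_apply] at h8
    simp only [map_smul, Pi.smul_apply, smul_eq_mul, Pi.single_apply] at h8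
    rw [h8]
    simp [eq_comm]
  let κ : ℚ_[p] →+* ℂ_[p] := (UniformSpace.Completion.coeRingHom).comp (algebraMap ℚ_[p] (PadicAlgCl p))
  rw [Fintype.linearIndependent_iff]
  intro c hc j'
  have h9 : ∀ i, ∑ j, c j * κ ((b j i : ℤ_[p]) : ℚ_[p]) = 0 := by
    intro i
    have := congrFun hc i
    rw [Finset.sum_apply] at this
    exact this
  have h10 : ∑ i, (∑ j, c j * κ ((b j i : ℤ_[p]) : ℚ_[p])) * κ (g (Pi.single i 1) j') = c j' := by
    have h11 : ∀ i, (∑ j, c j * κ ((b j i : ℤ_[p]) : ℚ_[p])) * κ (g (Pi.single i 1) j') =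
        ∑ j, c j * κ (f (b j) i * g (Pi.single i 1) j') := by
      intro i
      rw [Finset.sum_mul]
      refine Finset.sum_congr rfl fun j _ => ?_
      rw [mul_assoc, map_mul]
      rfl
    simp_rw [h11]
    rw [Finset.sum_comm]
    simp_rw [← Finset.mul_sum, ← map_sum, h4]
    rw [Finset.sum_eq_single j']
    · rw [if_pos rfl, map_one, mul_one]
    · intro j _ hj
      rw [if_neg hj, map_zero, mul_zero]
    · intro h
      exact absurd (Finset.mem_univ _) h
  rw [← h10]
  exact Finset.sum_eq_zero fun i _ => by rw [h9 i, zero_mul]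

/-- the complement of the bad set -/
theorem compl_bound {α : Type} {E B G : Set α} (hE : E.Finite) (hB : B ⊆ E) (hG : G ⊆ E) (h : ∀ q ∈ E, q ∈ B ∨ q ∈ G)
    {b : ℝ} (hb : (B.ncard : ℝ) ≤ b * E.ncard) : (1 - b) * E.ncard ≤ (G.ncard : ℝ) := by
  have h1 : E ⊆ B ∪ G := fun q hq => h q hq
  have h2 := Set.ncard_le_ncard h1 ((hE.subset hB).union (hE.subset hG))
  have h3 := Set.ncard_union_le B G
  have h4 : (E.ncard : ℝ) ≤ B.ncard + G.ncard := by exact_mod_cast h2.trans h3
  have h5 : (1 - b) * (E.ncard : ℝ) = E.ncard - b * E.ncard := by ring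
  rw [h5]
  linarith

variable {L : Type} [Field L] [NumberField L] [Algebra F L]

/-- from `p`-adic independence to the rank of the matrix of the logarithms -/
theorem rank_of_ind {p : ℕ} [Fact p.Prime] (hp : p ≠ 2) {Lg : ℂ_[p] → ℂ_[p]} (hL : IsIwasawaLog p Lg)
    {T : Set (HeightOneSpectrum (𝓞 F))} (hT : ∀ v ∈ T, Q7.LK.Dp p v) {H : Subgroup Lˣ}
    (hH : ∀ x ∈ H, ∀ v ∈ T, Q7.LS.Un v (x : L)) {R : ℕ} (h : Q7.LS.IndH p T H R) : RankAtLeast Lg T H R := by
  obtain ⟨ε, hε, hi⟩ := h
  refine ⟨ε, hε, fun a ha => ?_⟩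
  by_contra ha0
  obtain ⟨b, hb, hr⟩ := Q7.LS.t_LOGB p hp F L T hT Lg ⟨hL.mul, hL.prime, hL.ser⟩ R ε (fun i => hH _ (hε i)) 1
    (fun _ => a) (LinearIndependent.of_subsingleton (0 : Fin 1) ha0) (fun _ σ hσ => ha σ hσ)
  exact hb.ne_zero 0 (hi _ (hr 0))

/-- from relations between logarithms to `p`-adic relations -/
theorem def_of_log {p : ℕ} [Fact p.Prime] (hp : p ≠ 2) {Lg : ℂ_[p] → ℂ_[p]} (hL : IsIwasawaLog p Lg)
    {T : Set (HeightOneSpectrum (𝓞 F))} (hT : ∀ v ∈ T, Q7.LK.Dp p v) {H : Subgroup Lˣ}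
    (hH : ∀ x ∈ H, ∀ v ∈ T, Q7.LS.Un v (x : L)) {t : ℕ} (h : DefectAtLeast Lg T H t) : Q7.LS.DefH p T H t := by
  obtain ⟨n, ε, hε, hi, a, ha, hr⟩ := h
  obtain ⟨b, hb, hb2⟩ := Q7.LS.t_LOGB p hp F L T hT Lg ⟨hL.mul, hL.prime, hL.ser⟩ n ε (fun i => hH _ (hε i)) t a ha hr
  exact ⟨n, ε, hε, hi, b, hb, hb2⟩

/-- from `p`-adic relations to relations between logarithms -/
theorem log_of_def {p : ℕ} [Fact p.Prime] {Lg : ℂ_[p] → ℂ_[p]} (hL : IsIwasawaLog p Lg)
    {T : Set (HeightOneSpectrum (𝓞 F))} (hT : ∀ v ∈ T, Q7.LK.Dp p v) {H : Subgroup Lˣ} {t : ℕ}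
    (h : Q7.LS.DefH p T H t) : DefectAtLeast Lg T H t := by
  obtain ⟨n, ε, hε, hi, a, ha, hr⟩ := h
  exact ⟨n, ε, hε, hi, _, indep_Cp ha, fun j σ hσ =>
    Q7.LS.t_LOGA p F L T hT Lg ⟨hL.mul, hL.prime, hL.ser⟩ n ε (a j) (hr j) σ hσ⟩

end Proof

/-- **Main result.** -/
theorem result (p : ℕ) [Fact p.Prime] (hp : p ≠ 2) (F : Type) [Field F] [NumberField F] (ζ : F)
    (hζ : IsPrimitiveRoot ζ p) (Lg : ℂ_[p] → ℂ_[p]) (hL : IsIwasawaLog p Lg) :
    ∃ y₀ : ℕ, ∀ y, y₀ ≤ y → ∀ d₀ : F, d₀ ≠ 0 →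
      (∀ (k : ℕ) (z : Fin k → ZMod p) (q : Fin k → HeightOneSpectrum (𝓞 F)) (d d' : F),
        Fits p y d₀ z q d → Fits p y d₀ z q d' → ∃ x : F, d = d' * x ^ p) ∧
      ∀ T S : Set (HeightOneSpectrum (𝓞 F)), (∀ v ∈ T, (p : 𝓞 F) ∈ v.asIdeal) → (∀ v ∈ S, Small y v) → Disjoint T S →
      ∀ m s N : ℕ, m = InfinitePlace.nrComplexPlaces F → s = splitS p S d₀ → 1 ≤ s → N = degT p T →
      ∀ ε : ℝ, 0 < ε → ∃ k₀ : ℕ, ∀ k, k₀ ≤ k → ∀ z : Fin k → ZMod p, (∀ i, z i ≠ 0) → Nested k fun X =>
        (Ensemble p y d₀ z X).Finite ∧ (Ensemble p y d₀ z X).Nonempty ∧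
        (∀ t : ℕ, 1 ≤ t →
          (1 - (1 / (p : ℝ)) ^ ((m + s - N) + (N - (m + s))) / ((p : ℝ) ^ t - 1) - ε) * (Ensemble p y d₀ z X).ncard ≤
            ({q ∈ Ensemble p y d₀ z X | ∀ (d : F) (L : Type) [Field L] [NumberField L] [Algebra F L],
              Fits p y d₀ z q d → IsKummer p F L d →
                RankAtLeast Lg T (NormOne L S) ((p - 1) * (min (m + s) N - (t - 1)))}.ncard : ℝ)) ∧
        (m + s ≤ N →
          (1 - (1 / (p : ℝ)) ^ (N - (m + s)) / ((p : ℝ) - 1) - ε) * (Ensemble p y d₀ z X).ncard ≤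
            ({q ∈ Ensemble p y d₀ z X | ∀ (d : F) (L : Type) [Field L] [NumberField L] [Algebra F L],
              Fits p y d₀ z q d → IsKummer p F L d →
                ∀ H : Subgroup Lˣ, H ≤ SUnits L S → ∀ t : ℕ,
                  DefectAtLeast Lg T H t → DefectAtLeast (L := F) Lg T (H.map (relNorm F L)) t}.ncard : ℝ)) := by
  obtain ⟨y1, hy1⟩ := Q7.LS.shares Q7.LS.t_NSB Q7.LS.t_RKR Q7.LS.t_DEP Q7.LS.t_CR1S Q7.LS.t_CR2S Q7.LS.t_BRG
    Q7.LS.t_MEANN Q7.LS.t_LCN Q7.LS.t_SUMC p hp F ζ hζ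
  obtain ⟨y2, hy2⟩ := Q7.LK.uniq Q7.LK.t_BAS Q7.LK.t_BASE p hp F ζ hζ
  refine ⟨max (max y1 y2) p, fun y hy d₀ hd₀ => ⟨fun k z q d d' hd hd' => ?_,
    fun T S hT hS hTS m s N hm hs hs1 hN ε hε => ?_⟩⟩
  · obtain ⟨x, hx⟩ := hy2 y (le_trans (le_max_right _ _) (le_trans (le_max_left _ _) hy)) d₀ hd₀ k z q d d'
      (fits_iff.mp hd) (fits_iff.mp hd')
    refine ⟨x, ?_⟩
    rw [← hx, mul_div_cancel₀ _ hd'.ne]
  have hyp : p ≤ y := (le_max_right _ _).trans hy
  have hSm : {v : HeightOneSpectrum (𝓞 F) | Q283.LQ.Sm y v}.Finite := (Q7.LK.t_LOC p hp F ζ hζ y hyp).1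
  have hSf : S.Finite := hSm.subset fun v hv => hS v hv
  obtain ⟨k0, hk0⟩ := hy1 y (le_trans (le_max_left _ _) (le_trans (le_max_left _ _) hy)) T S hT hTS hS hSf d₀ hd₀ ε hε
  refine ⟨max k0 1, fun k hk z hz => (nested_iff k _).mpr (Q7.LK.nest_mono k _ _ (fun X hX => ?_)
    (hk0 k (le_trans (le_max_left _ _) hk) z hz))⟩
  have hk1 : 1 ≤ k := le_trans (le_max_right _ _) hk
  obtain ⟨hfin, hpos, hB⟩ := hX
  have hE : Ensemble p y d₀ z X = Q7.LS.Ens p y d₀ z X := by
    ext q
    simp only [Ensemble, Q7.LS.Ens, Q283.LQ.Box, Set.mem_ofPred_eq, fits_iff]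
    rfl
  have hs' : s = Q7.LS.sX p S d₀ := by rw [hs, split_eq]
  have hN' : N = Q7.LS.dT p T := by rw [hN, degT_eq]
  rw [← hm, ← hs', ← hN', ← hE] at hB
  rw [← hE] at hpos
  have hEfin : (Ensemble p y d₀ z X).Finite := by
    rw [hE]
    exact hfin.subset (fun q hq => hq.1)
  have hsd : ∀ q d, Fits p y d₀ z q d → Q7.LS.sX p S d = s := fun q d hd =>
    ((Q7.LS.t_BRG p hp F ζ hζ y hyp T S hT hTS hS d₀ hd₀ k z q d (fits_iff.mp hd)).1).trans hs'.symm
  refine ⟨hEfin, ?_, fun t ht => ?_, fun hmN => ?_⟩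
  · rw [← Set.ncard_pos hEfin]
    exact_mod_cast hpos
  · refine le_trans (le_of_eq (by unfold Q7.LS.gp; ring)) (compl_bound hEfin (fun q hq => hq.1) (fun q hq => hq.1)
      (fun q hq => ?_) (hB t ht))
    by_cases hc : q ∈ {q ∈ Ensemble p y d₀ z X | ∃ d, Q7.LK.Fits p y d₀ z q d ∧
        ∃ (L : Type) (_ : Field L) (_ : NumberField L) (_ : Algebra F L), Q7.LK.Kum p F L d ∧
          Q7.LS.OutMS L p T S ((p - 1) * (m + s - N + t - 1) + 1)}
    · exact Or.inl hc
    · refine Or.inr ⟨hq, ?_⟩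
      intro d L _ _ _ hd hK
      have hnp := Q7.LK.fits_not_pow (hE ▸ hq : q ∈ Q7.LS.Ens p y d₀ z X).1 hk1 hz (fits_iff.mp hd)
      have hK' : Q7.LK.Kum p F L d := ⟨hK.deg, hK.root⟩
      refine rank_of_ind hp hL hT (fun x hx => Q7.LS.un_of_NS hTS hx) ?_
      by_contra hind
      refine hc ⟨hq, d, fits_iff.mp hd, L, inferInstance, inferInstance, inferInstance, hK', ?_⟩
      rcases Nat.lt_or_ge (min (m + s) N) t with h0 | h0
      · exfalso
        refine hind ?_
        have h1 : (p - 1) * (min (m + s) N - (t - 1)) = 0 := by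
          rw [Nat.sub_eq_zero_of_le (show min (m + s) N ≤ t - 1 by omega), mul_zero]
        rw [h1]
        exact ⟨fun i => i.elim0, fun i => i.elim0, fun a _ => Subsingleton.elim _ _⟩
      · refine Q7.LS.out_of_rank Q7.LS.t_NSB Q7.LS.t_RKR hp hζ hK' hnp hT hTS hSf hind ?_
        rw [hsd q d hd, ← hm]
        have h2 : (p - 1) * (m + s - N + t - 1) + (p - 1) * (min (m + s) N - (t - 1)) = (p - 1) * (m + s) := by
          rw [← Nat.mul_add]
          congr 1
          omega
        omega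
  · have hB1 := hB 1 le_rfl
    have he : Q7.LS.gp (m + s) N = N - (m + s) := by
      unfold Q7.LS.gp
      omega
    rw [he, pow_one] at hB1
    refine le_trans (le_of_eq (by ring)) (compl_bound hEfin (fun q hq => hq.1) (fun q hq => hq.1)
      (fun q hq => ?_) hB1)
    by_cases hc : q ∈ {q ∈ Ensemble p y d₀ z X | ∃ d, Q7.LK.Fits p y d₀ z q d ∧
        ∃ (L : Type) (_ : Field L) (_ : NumberField L) (_ : Algebra F L), Q7.LK.Kum p F L d ∧
          Q7.LS.OutMS L p T S ((p - 1) * (m + s - N + 1 - 1) + 1)}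
    · exact Or.inl hc
    · refine Or.inr ⟨hq, ?_⟩
      intro d L _ _ _ hd hK H hH t hdef
      have hnp := Q7.LK.fits_not_pow (hE ▸ hq : q ∈ Q7.LS.Ens p y d₀ z X).1 hk1 hz (fits_iff.mp hd)
      have hK' : Q7.LK.Kum p F L d := ⟨hK.deg, hK.root⟩
      have hHT : ∀ x ∈ H, ∀ v ∈ T, Q7.LS.Un v (x : L) := fun x hx v hv =>
        hH hx v (Set.disjoint_left.mp hTS hv)
      refine log_of_def hL hT ?_
      by_contra hnd
      refine hc ⟨hq, d, fits_iff.mp hd, L, inferInstance, inferInstance, inferInstance, hK', ?_⟩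
      have h0 : (p - 1) * (m + s - N + 1 - 1) + 1 = 1 := by
        rw [Nat.sub_eq_zero_of_le hmN]
        simp
      rw [h0]
      exact Q7.LS.out_of_def Q7.LS.t_DFN Q7.LS.t_OUT Q7.LS.t_NSB hp hζ hK' hnp hT hTS hSf hH
        (def_of_log hp hL hT hHT hdef) hnd

end Pool.Agent.Results.MP_1f047c_nt.RanksOfSUnitLogarithms
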